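import Pool.Agent.Run7.h47.V.Iface

/-! Piece L4: the bilinear estimate with patches. -/

set_option autoImplicit false

open scoped BigOperators Matrix
open MeasureTheory

namespace Pool.Agent.Run7.h338.VI

open Pool.Agent.W788.MFP.Four Pool.Agent.W788.MFP.Form Pool.Agent.W788.BK
open Pool.Agent.Run7.h47 Pool.Agent.Run7.h47.V

theorem sum_mul_le_of_nonneg {α : Type*} [Fintype α] (a b : α → ℝ) (ha : ∀ i, 0 ≤ a i)
    (hb : ∀ i, 0 ≤ b i) : ∑ i, a i * b i ≤ (∑ i, a i) * ∑ i, b i := by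
  rw [Finset.sum_mul]
  refine Finset.sum_le_sum fun i _ => mul_le_mul_of_nonneg_left ?_ (ha i)
  exact Finset.single_le_sum (f := b) (fun j _ => hb j) (Finset.mem_univ i)

theorem norm_chi (a : ℝ) (z : ℂ) : ‖(a : ℂ) * z‖ ^ 2 = a ^ 2 * ‖z‖ ^ 2 := by
  rw [norm_mul, Complex.norm_real, mul_pow, Real.norm_eq_abs, sq_abs]

theorem t_L4 : S_L4 := by
  intro d L n ℓ _ _ cell χ M hT E δ θ Q hδ hQ0 hQ u w
  have hJ : ∀ k : T d L, 0 ≤ J E δ k := fun k => (J_pos E δ hδ k).le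
  have h1 : ∀ j, ∑ x, ‖(χ j x : ℂ) * u x‖ ^ 2 * ‖(χ j x : ℂ) * w x‖ ^ 2 ≤
      Q * (qc (J E δ) (fun x => (χ j x : ℂ) * u x) * qc (J E δ) (fun x => (χ j x : ℂ) * w x)) +
        lw d L θ * (nsq (fun x => (χ j x : ℂ) * u x) * nsq (fun x => (χ j x : ℂ) * w x)) :=
    fun j => bil E δ θ Q hδ hQ0 hQ _ _
  have h2 : ∑ x, ‖u x‖ ^ 2 * ‖w x‖ ^ 2 ≤
      2 ^ d * ∑ j, ∑ x, ‖(χ j x : ℂ) * u x‖ ^ 2 * ‖(χ j x : ℂ) * w x‖ ^ 2 := by
    rw [Finset.sum_comm, Finset.mul_sum]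
    refine Finset.sum_le_sum fun x _ => ?_
    have h3 : ∑ j, ‖(χ j x : ℂ) * u x‖ ^ 2 * ‖(χ j x : ℂ) * w x‖ ^ 2 =
        (∑ j, χ j x ^ 4) * (‖u x‖ ^ 2 * ‖w x‖ ^ 2) := by
      rw [Finset.sum_mul]
      refine Finset.sum_congr rfl fun j _ => ?_
      rw [norm_chi, norm_chi]
      ring
    rw [h3, ← mul_assoc]
    have h4 := hT.four x
    have h5 : 0 ≤ ‖u x‖ ^ 2 * ‖w x‖ ^ 2 := by positivity
    nlinarith
  have hn : ∀ v : T d L → ℂ, ∑ j, nsq (fun x => (χ j x : ℂ) * v x) = nsq v := by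
    intro v
    unfold nsq
    rw [Finset.sum_comm]
    refine Finset.sum_congr rfl fun x _ => ?_
    have h3 : ∑ j, ‖(χ j x : ℂ) * v x‖ ^ 2 = (∑ j, χ j x ^ 2) * ‖v x‖ ^ 2 := by
      rw [Finset.sum_mul]
      exact Finset.sum_congr rfl fun j _ => norm_chi _ _
    rw [h3, hT.sq, one_mul]
  have hnn : ∀ v : T d L → ℂ, 0 ≤ nsq v := fun v => Finset.sum_nonneg fun x _ => by positivity
  have h6 : ∑ j, ∑ x, ‖(χ j x : ℂ) * u x‖ ^ 2 * ‖(χ j x : ℂ) * w x‖ ^ 2 ≤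
      Q * (BX χ E δ u * BX χ E δ w) + lw d L θ * (nsq u * nsq w) := by
    refine (Finset.sum_le_sum fun j _ => h1 j).trans ?_
    rw [Finset.sum_add_distrib, ← Finset.mul_sum, ← Finset.mul_sum]
    refine add_le_add ?_ ?_
    · refine mul_le_mul_of_nonneg_left ?_ hQ0
      exact sum_mul_le_of_nonneg _ _ (fun j => qc_nonneg _ _ hJ) (fun j => qc_nonneg _ _ hJ)
    · refine mul_le_mul_of_nonneg_left ?_ (lw_nonneg θ)
      refine (sum_mul_le_of_nonneg _ _ (fun j => hnn _) (fun j => hnn _)).trans ?_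
      rw [hn, hn]
  exact h2.trans (mul_le_mul_of_nonneg_left h6 (by positivity))

end Pool.Agent.Run7.h338.VI
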