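import Pool.Agent.Run7.h47.V.Iface

/-! Piece TL: tilings of the torus. -/

set_option autoImplicit false

open scoped BigOperators Matrix
open MeasureTheory

namespace Pool.Agent.Run7.h338.VI

open Pool.Agent.W788.MFP.Four
open Pool.Agent.Run7.h47 Pool.Agent.Run7.h47.V

noncomputable section

/-- the vector `cos θ δ_c + sin θ δ_{c+1}` -/
def vec (n : ℕ) (c : ZMod n) (θ : ℝ) (a : ZMod n) : ℝ :=
  (if a = c then Real.cos θ else 0) + (if a = c + 1 then Real.sin θ else 0)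

theorem ne_add_one {n : ℕ} (hn : 2 ≤ n) (c : ZMod n) : c ≠ c + 1 := by
  have : Fact (1 < n) := ⟨by omega⟩
  intro h
  have h1 : (1 : ZMod n) = 0 := by
    have := congrArg (fun z => z - c) h
    simp only [sub_self, add_sub_cancel_left] at this
    exact this.symm
  exact one_ne_zero h1

theorem sum_two {n : ℕ} [NeZero n] (hn : 2 ≤ n) (c : ZMod n) (u v : ℝ) (φ : ℝ → ℝ) (h0 : φ 0 = 0) :
    ∑ a : ZMod n, φ ((if a = c then u else 0) + (if a = c + 1 then v else 0)) = φ u + φ v := by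
  have h1 : ∀ a : ZMod n, φ ((if a = c then u else 0) + (if a = c + 1 then v else 0)) =
      (if a = c then φ u else 0) + (if a = c + 1 then φ v else 0) := by
    intro a
    by_cases ha : a = c
    · have hb : a ≠ c + 1 := by rw [ha]; exact ne_add_one hn c
      rw [if_pos ha, if_neg hb, if_pos ha, if_neg hb, add_zero, add_zero]
    · by_cases hb : a = c + 1
      · rw [if_neg ha, if_pos hb, if_neg ha, if_pos hb, zero_add, zero_add]
      · rw [if_neg ha, if_neg hb, if_neg ha, if_neg hb, add_zero, h0]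
  rw [Finset.sum_congr rfl fun a _ => h1 a, Finset.sum_add_distrib, Finset.sum_ite_eq',
    Finset.sum_ite_eq']
  simp

theorem vec_sq {n : ℕ} [NeZero n] (hn : 2 ≤ n) (c : ZMod n) (θ : ℝ) :
    ∑ a, vec n c θ a ^ 2 = 1 := by
  unfold vec
  rw [sum_two hn c (Real.cos θ) (Real.sin θ) (fun t => t ^ 2) (by norm_num)]
  exact Real.cos_sq_add_sin_sq θ

theorem vec_four {n : ℕ} [NeZero n] (hn : 2 ≤ n) (c : ZMod n) (θ : ℝ) :
    1 ≤ 2 * ∑ a, vec n c θ a ^ 4 := by
  unfold vec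
  rw [sum_two hn c (Real.cos θ) (Real.sin θ) (fun t => t ^ 4) (by norm_num)]
  have h := Real.cos_sq_add_sin_sq θ
  nlinarith [sq_nonneg (Real.cos θ ^ 2 - Real.sin θ ^ 2)]

theorem vec_grad {n : ℕ} [NeZero n] (hn : 2 ≤ n) (c : ZMod n) (θ θ' : ℝ) :
    ∑ a, (vec n c θ' a - vec n c θ a) ^ 2 ≤ (θ' - θ) ^ 2 := by
  have h1 : ∀ a, (vec n c θ' a - vec n c θ a) ^ 2 =
      (fun t : ℝ => t ^ 2) ((if a = c then Real.cos θ' - Real.cos θ else 0) +
        (if a = c + 1 then Real.sin θ' - Real.sin θ else 0)) := by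
    intro a
    unfold vec
    simp only
    congr 1
    split_ifs <;> ring
  rw [Finset.sum_congr rfl fun a _ => h1 a, sum_two hn c _ _ (fun t => t ^ 2) (by norm_num)]
  have h2 : (Real.cos θ' - Real.cos θ) ^ 2 + (Real.sin θ' - Real.sin θ) ^ 2 =
      2 - 2 * Real.cos (θ' - θ) := by
    rw [Real.cos_sub]
    have := Real.cos_sq_add_sin_sq θ
    have := Real.cos_sq_add_sin_sq θ'
    linarith
  rw [h2]
  have := Real.one_sub_sq_div_two_le_cos (x := θ' - θ)
  linarith

/-- cell number and angle of a natural number -/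
def vm (n ℓ m : ℕ) : ZMod n → ℝ :=
  vec n ((m / ℓ : ℕ) : ZMod n) (Real.pi / (2 * ℓ) * ((m % ℓ : ℕ) : ℝ))

/-- the next vector is obtained by a rotation -/
theorem vm_succ {n ℓ : ℕ} [NeZero n] (hn : 2 ≤ n) (hℓ : 1 ≤ ℓ) (m : ℕ) :
    ∑ a, (vm n ℓ (m + 1) a - vm n ℓ m a) ^ 2 ≤ 10 / (ℓ : ℝ) ^ 2 := by
  have hℓ0 : (0 : ℝ) < ℓ := by exact_mod_cast hℓ
  have hrot : vm n ℓ (m + 1) = vec n ((m / ℓ : ℕ) : ZMod n)
      (Real.pi / (2 * ℓ) * ((m % ℓ : ℕ) : ℝ) + Real.pi / (2 * ℓ)) := by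
    by_cases hs : m % ℓ + 1 < ℓ
    · have h1 : (m + 1) / ℓ = m / ℓ := by
        rw [Nat.add_div (by omega)]
        have h2 : 1 / ℓ = 0 := Nat.div_eq_of_lt (by omega)
        have h3 : 1 % ℓ = 1 := Nat.mod_eq_of_lt (by omega)
        rw [h2, h3, if_neg (by omega)]
        omega
      have h4 : (m + 1) % ℓ = m % ℓ + 1 := by
        rw [Nat.add_mod]
        have h3 : 1 % ℓ = 1 := Nat.mod_eq_of_lt (by omega)
        rw [h3]
        exact Nat.mod_eq_of_lt hs
      unfold vm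
      rw [h1, h4]
      congr 1
      push_cast
      ring
    · have hlt := Nat.mod_lt m (by omega : 0 < ℓ)
      have hs' : m % ℓ + 1 = ℓ := by omega
      have h0 := Nat.div_add_mod m ℓ
      have h5 : m + 1 = ℓ * (m / ℓ + 1) := by
        rw [mul_add]
        omega
      have h1 : (m + 1) / ℓ = m / ℓ + 1 := by
        rw [h5, Nat.mul_div_cancel_left _ (by omega)]
      have h4 : (m + 1) % ℓ = 0 := by
        rw [h5, Nat.mul_mod_right]
      have h6 : Real.pi / (2 * ℓ) * ((m % ℓ : ℕ) : ℝ) + Real.pi / (2 * ℓ) = Real.pi / 2 := by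
        have h7 : ((m % ℓ : ℕ) : ℝ) + 1 = ℓ := by exact_mod_cast hs'
        calc Real.pi / (2 * ℓ) * ((m % ℓ : ℕ) : ℝ) + Real.pi / (2 * ℓ) =
            Real.pi / (2 * ℓ) * (((m % ℓ : ℕ) : ℝ) + 1) := by ring
          _ = Real.pi / 2 := by rw [h7]; field_simp
      unfold vm
      rw [h1, h4, h6]
      funext a
      unfold vec
      rw [Real.cos_pi_div_two, Real.sin_pi_div_two]
      push_cast
      rw [mul_zero, Real.cos_zero, Real.sin_zero]
      simp
  rw [hrot]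
  unfold vm
  refine (vec_grad hn _ _ _).trans ?_
  have hpi := Real.pi_lt_d2
  have hpi0 := Real.pi_pos
  rw [add_sub_cancel_left, div_pow]
  have h8 : Real.pi ^ 2 ≤ 10 * 2 ^ 2 := by nlinarith
  rw [mul_pow, ← div_div]
  gcongr
  rw [div_le_iff₀ (by norm_num)]
  exact h8

/-- the one-dimensional cell -/
def c1 (n ℓ : ℕ) {L : ℕ} (y : ZMod L) : ZMod n := ((y.val / ℓ : ℕ) : ZMod n)

/-- the one-dimensional cutoff -/
def x1 (n ℓ : ℕ) {L : ℕ} (a : ZMod n) (y : ZMod L) : ℝ := vm n ℓ y.val a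

theorem vm_mod (n ℓ m : ℕ) (a : ZMod n) : vm n ℓ (m % (n * ℓ)) a = vm n ℓ m a := by
  unfold vm
  have h1 : m % (n * ℓ) % ℓ = m % ℓ := Nat.mod_mul_left_mod m n ℓ
  have h2 : m % (n * ℓ) / ℓ = m / ℓ % n := by
    rw [Nat.mod_mul_left_div_self]
  rw [h1, h2, ZMod.natCast_mod]

theorem x1_grad {L n ℓ : ℕ} [NeZero L] [NeZero n] (hn : 2 ≤ n) (hℓ : 1 ≤ ℓ) (hL : L = n * ℓ)
    (y : ZMod L) : ∑ a, (x1 n ℓ a (y + 1) - x1 n ℓ a y) ^ 2 ≤ 10 / (ℓ : ℝ) ^ 2 := by
  have hL2 : 1 < L := by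
    rw [hL]
    calc 1 < n := by omega
      _ = n * 1 := (mul_one n).symm
      _ ≤ n * ℓ := Nat.mul_le_mul_left n hℓ
  have : Fact (1 < L) := ⟨hL2⟩
  have h1 : ∀ a, x1 n ℓ a (y + 1) = vm n ℓ (y.val + 1) a := by
    intro a
    unfold x1
    have h0 : (y.val + 1) % L = (y.val + 1) % (n * ℓ) := by rw [← hL]
    rw [ZMod.val_add, ZMod.val_one, h0, vm_mod]
  have h2 : ∀ a, (x1 n ℓ a (y + 1) - x1 n ℓ a y) ^ 2 = (vm n ℓ (y.val + 1) a - vm n ℓ y.val a) ^ 2 := by
    intro a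
    rw [h1]
    rfl
  rw [Finset.sum_congr rfl fun a _ => h2 a]
  exact vm_succ hn hℓ _

theorem x1_ne {L n ℓ : ℕ} (a : ZMod n) (y : ZMod L) (h : x1 n ℓ a y ≠ 0) :
    c1 n ℓ y = a ∨ c1 n ℓ y + 1 = a := by
  by_contra hcon
  push Not at hcon
  apply h
  unfold x1 vm vec
  rw [if_neg (fun h => hcon.1 h.symm), if_neg (fun h => hcon.2 h.symm), add_zero]

theorem card_c1 {L n ℓ : ℕ} [NeZero L] [NeZero n] (hℓ : 1 ≤ ℓ) (hL : L = n * ℓ) (c : ZMod n) :
    (Finset.univ.filter fun y : ZMod L => c1 n ℓ y = c).card ≤ ℓ := by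
  have h1 : (Finset.univ.filter fun y : ZMod L => c1 n ℓ y = c).card ≤ (Finset.range ℓ).card := by
    refine Finset.card_le_card_of_injOn (fun y => y.val % ℓ) ?_ ?_
    · intro y _
      simp only [Finset.coe_range, Set.mem_Iio]
      exact Nat.mod_lt _ (by omega)
    · intro y hy y' hy' h
      simp only [Finset.coe_filter, Finset.mem_univ, true_and, Set.mem_ofPred_eq] at hy hy'
      simp only at h
      apply ZMod.val_injective L
      have hlt : ∀ z : ZMod L, z.val / ℓ < n := by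
        intro z
        rw [Nat.div_lt_iff_lt_mul (by omega)]
        have := ZMod.val_lt z
        omega
      have h3 : ((y.val / ℓ : ℕ) : ZMod n) = ((y'.val / ℓ : ℕ) : ZMod n) := hy.trans hy'.symm
      have h4 : y.val / ℓ = y'.val / ℓ := by
        have h5 := congrArg ZMod.val h3
        rwa [ZMod.val_natCast, ZMod.val_natCast, Nat.mod_eq_of_lt (hlt y),
          Nat.mod_eq_of_lt (hlt y')] at h5
      rw [← Nat.div_add_mod y.val ℓ, ← Nat.div_add_mod y'.val ℓ, h4, h]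
  simpa using h1

/-- sums over all patches of products -/
theorem sum_prod {d n : ℕ} [NeZero n] (g : Fin d → ZMod n → ℝ) :
    ∑ j : T d n, ∏ i, g i (j i) = ∏ i, ∑ a, g i a := by
  rw [Finset.prod_univ_sum, Fintype.piFinset_univ]

theorem t_TL : S_TL := by
  intro d L n ℓ _ _ hn hℓ hL
  classical
  refine ⟨fun x i => c1 n ℓ (x i), fun j x => ∏ i, x1 n ℓ (j i) (x i),
    fun j => Fintype.piFinset fun i => {j i, j i - 1}, ?_⟩
  refine ⟨?_, ?_, ?_, ?_, ?_, ?_⟩
  · intro c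
    have h1 : (Finset.univ.filter fun x : T d L => (fun i => c1 n ℓ (x i)) = c) ⊆
        Fintype.piFinset fun i => Finset.univ.filter fun y : ZMod L => c1 n ℓ y = c i := by
      intro x hx
      simp only [Finset.mem_filter, Finset.mem_univ, true_and] at hx
      simp only [Fintype.mem_piFinset, Finset.mem_filter, Finset.mem_univ, true_and]
      intro i
      exact congrFun hx i
    refine (Finset.card_le_card h1).trans ?_
    rw [Fintype.card_piFinset]
    refine (Finset.prod_le_prod (fun i _ => Nat.zero_le _)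
      (fun i _ => card_c1 hℓ hL (c i))).trans ?_
    simp
  · intro j
    rw [Fintype.card_piFinset]
    refine (Finset.prod_le_prod (fun i _ => Nat.zero_le _)
      (fun i _ => Finset.card_le_two)).trans ?_
    simp
  · intro j x hx
    rw [Fintype.mem_piFinset]
    intro i
    have h1 : x1 n ℓ (j i) (x i) ≠ 0 := fun h => hx (Finset.prod_eq_zero (Finset.mem_univ i) h)
    rw [Finset.mem_insert, Finset.mem_singleton]
    rcases x1_ne _ _ h1 with h | h
    · exact Or.inl h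
    · right
      rw [← h, add_sub_cancel_right]
  · intro x
    have h1 : ∀ j : T d n, (∏ i, x1 n ℓ (j i) (x i)) ^ 2 = ∏ i, (fun i a => x1 n ℓ a (x i) ^ 2) i (j i) :=
      fun j => by rw [← Finset.prod_pow]
    rw [Finset.sum_congr rfl fun j _ => h1 j, sum_prod (fun i a => x1 n ℓ a (x i) ^ 2)]
    exact Finset.prod_eq_one fun i _ => vec_sq hn _ _
  · intro x
    have h1 : ∀ j : T d n, (∏ i, x1 n ℓ (j i) (x i)) ^ 4 = ∏ i, (fun i a => x1 n ℓ a (x i) ^ 4) i (j i) :=
      fun j => by rw [← Finset.prod_pow]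
    rw [Finset.sum_congr rfl fun j _ => h1 j, sum_prod (fun i a => x1 n ℓ a (x i) ^ 4)]
    have h2 : (2 : ℝ) ^ d * ∏ i : Fin d, ∑ a, x1 n ℓ a (x i) ^ 4 =
        ∏ i : Fin d, (2 * ∑ a, x1 n ℓ a (x i) ^ 4) := by
      rw [Finset.prod_mul_distrib]
      simp
    show 1 ≤ (2 : ℝ) ^ d * ∏ i : Fin d, ∑ a, x1 n ℓ a (x i) ^ 4
    rw [h2]
    have h5 : ∏ i : Fin d, (1 : ℝ) ≤ ∏ i : Fin d, (2 * ∑ a, x1 n ℓ a (x i) ^ 4) :=
      Finset.prod_le_prod (fun i _ => zero_le_one) fun i _ => vec_four hn _ _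
    simpa using h5
  · intro x i
    have h1 : ∀ j : T d n, ((∏ k, x1 n ℓ (j k) ((x + Pi.single i 1 : T d L) k)) -
        ∏ k, x1 n ℓ (j k) (x k)) ^ 2 =
        ∏ k, (fun k a => if k = i then (x1 n ℓ a (x k + 1) - x1 n ℓ a (x k)) ^ 2
          else x1 n ℓ a (x k) ^ 2) k (j k) := by
      intro j
      rw [← Finset.mul_prod_erase Finset.univ _ (Finset.mem_univ i),
        ← Finset.mul_prod_erase Finset.univ (fun k => x1 n ℓ (j k) (x k)) (Finset.mem_univ i),
        ← Finset.mul_prod_erase Finset.univ _ (Finset.mem_univ i)]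
      have h2 : ∏ k ∈ Finset.univ.erase i, x1 n ℓ (j k) ((x + Pi.single i 1 : T d L) k) =
          ∏ k ∈ Finset.univ.erase i, x1 n ℓ (j k) (x k) := by
        refine Finset.prod_congr rfl fun k hk => ?_
        rw [Finset.mem_erase] at hk
        rw [Pi.add_apply, Pi.single_eq_of_ne hk.1, add_zero]
      have h3 : ∏ k ∈ Finset.univ.erase i, (fun k a => if k = i then
          (x1 n ℓ a (x k + 1) - x1 n ℓ a (x k)) ^ 2 else x1 n ℓ a (x k) ^ 2) k (j k) =
          (∏ k ∈ Finset.univ.erase i, x1 n ℓ (j k) (x k)) ^ 2 := by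
        rw [← Finset.prod_pow]
        refine Finset.prod_congr rfl fun k hk => ?_
        rw [Finset.mem_erase] at hk
        simp only
        rw [if_neg hk.1]
      rw [h2, h3, Pi.add_apply, Pi.single_eq_same]
      simp only [if_true]
      ring
    rw [Finset.sum_congr rfl fun j _ => h1 j, sum_prod (fun k a => if k = i then
        (x1 n ℓ a (x k + 1) - x1 n ℓ a (x k)) ^ 2 else x1 n ℓ a (x k) ^ 2),
      ← Finset.mul_prod_erase Finset.univ _ (Finset.mem_univ i)]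
    have h4 : ∏ k ∈ Finset.univ.erase i, ∑ a, (fun k a => if k = i then
        (x1 n ℓ a (x k + 1) - x1 n ℓ a (x k)) ^ 2 else x1 n ℓ a (x k) ^ 2) k a = 1 := by
      refine Finset.prod_eq_one fun k hk => ?_
      rw [Finset.mem_erase] at hk
      simp only
      rw [Finset.sum_congr rfl fun a _ => if_neg hk.1]
      exact vec_sq hn _ _
    rw [h4, mul_one]
    simp only [if_true]
    exact x1_grad hn hℓ hL (x i)

end

end Pool.Agent.Run7.h338.VI
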